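import Pool.Agent.H16.GPS.Num.Selberg
import Pool.Agent.H16.GPS.Num.GG

/-!
The Brun-Titchmarsh inequality for intervals, with the constant `2`, from the Selberg weights of
`Pool.Agent.H16.GPS`.
-/

set_option autoImplicit false

open Finset

namespace Pool.Agent.H90.NA

open Pool.Agent.H16 Pool.Agent.H16.GPS

open private gg_log_le from Pool.Agent.H16.GPS.Num.GG

lemma Vp_one : Vp 1 = 1 := by
  unfold Vp
  have : Nat.primesLE 1 = ∅ := by decide
  rw [this, Finset.prod_empty]

lemma log_le_GG (R : ℕ) : Real.log R ≤ GG 1 R := by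
  have h := gg_log_le 1 R
  rwa [Vp_one, inv_one, mul_one] at h

/-- the number of multiples of `l` in `(a, a + H]` -/
lemma count_mult (a H l : ℕ) (hl : 1 ≤ l) :
    |(((Ioc a (a + H)).filter (fun n => l ∣ n)).card : ℝ) - (H : ℝ) / l| ≤ 1 := by
  have h1 : ((Ioc a (a + H)).filter (fun n => l ∣ n)).card + a / l = (a + H) / l := by
    have h2 := Nat.Ioc_filter_dvd_card_eq_div (a + H) l
    have h3 := Nat.Ioc_filter_dvd_card_eq_div a l
    rw [← h2, ← h3, ← card_union_of_disjoint]
    · congr 1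
      rw [← filter_union]
      congr 1
      ext n
      simp only [mem_union, mem_Ioc]
      omega
    · rw [disjoint_left]
      intro n hn hn2
      simp only [mem_filter, mem_Ioc] at hn hn2
      omega
  have hl0 : (0 : ℝ) < l := by exact_mod_cast hl
  have e1 : (((Ioc a (a + H)).filter (fun n => l ∣ n)).card : ℝ) + ((a / l : ℕ) : ℝ) =
      (((a + H) / l : ℕ) : ℝ) := by exact_mod_cast h1
  have key : ∀ m : ℕ, ((m / l : ℕ) : ℝ) ≤ (m : ℝ) / l ∧ (m : ℝ) / l < ((m / l : ℕ) : ℝ) + 1 := by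
    intro m
    constructor
    · exact Nat.cast_div_le
    · rw [div_lt_iff₀ hl0]
      have := Nat.lt_succ_iff.mpr (Nat.le_refl (m / l))
      have h3 := Nat.lt_div_mul_add (a := m) (b := l) (by omega)
      have h4 : m < (m / l + 1) * l := by
        rw [add_mul, one_mul]; exact h3
      exact_mod_cast h4
  have h5 := key a
  have h6 := key (a + H)
  have h7 : (((a + H : ℕ)) : ℝ) / l = (a : ℝ) / l + (H : ℝ) / l := by
    push_cast; rw [add_div]
  rw [h7] at h6
  rw [abs_le]
  constructor <;> linarith [h5.1, h5.2, h6.1, h6.2]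

open Classical in
/-- the Selberg sieve in an interval -/
theorem selberg_interval (a H R : ℕ) (hR : 2 ≤ R) :
    (((Ioc a (a + H)).filter (fun n => ∀ p : ℕ, p.Prime → p ≤ R → ¬ p ∣ n)).card : ℝ) ≤
      H / Real.log R + (R : ℝ) ^ 2 := by
  set T := Dr 1 R with hT
  set lam : ℕ → ℝ := lamS 1 R with hlam
  have hR1 : 1 ≤ R := by omega
  have hone : 1 ∈ T := SelA.one_mem 1 R hR1
  have hlog : 0 < Real.log R := Real.log_pos (by exact_mod_cast (by omega : 1 < R))
  -- majorant
  have h1 : (((Ioc a (a + H)).filter (fun n => ∀ p : ℕ, p.Prime → p ≤ R → ¬ p ∣ n)).card : ℝ) ≤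
      ∑ n ∈ Ioc a (a + H), (∑ d ∈ T, if d ∣ n then lam d else 0) ^ 2 := by
    rw [card_filter]
    push_cast
    apply sum_le_sum
    intro n _
    split_ifs with h
    · have : ∑ d ∈ T, (if d ∣ n then lam d else 0) = 1 := by
        rw [sum_eq_single_of_mem 1 hone]
        · rw [if_pos (one_dvd n)]
          exact lamS_one 1 R hR1
        · intro d hd hd1
          rw [if_neg]
          intro hdn
          have hm := mem_Dr.mp hd
          obtain ⟨p, hp, hpd⟩ := Nat.exists_prime_and_dvd hd1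
          exact h p hp ((Nat.le_of_dvd (by omega) hpd).trans hm.2.1) (hpd.trans hdn)
      rw [this]; norm_num
    · positivity
  refine h1.trans ?_
  have h2 : ∑ n ∈ Ioc a (a + H), (∑ d ∈ T, if d ∣ n then lam d else 0) ^ 2 =
      ∑ d ∈ T, ∑ e ∈ T, lam d * lam e * (((Ioc a (a + H)).filter (fun n => Nat.lcm d e ∣ n)).card : ℝ) := by
    have h3 : ∀ n ∈ Ioc a (a + H), (∑ d ∈ T, if d ∣ n then lam d else 0) ^ 2 =
        ∑ d ∈ T, ∑ e ∈ T, lam d * lam e * (if Nat.lcm d e ∣ n then 1 else 0) := by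
      intro n _
      rw [sq, sum_mul_sum]
      apply sum_congr rfl
      intro d _
      apply sum_congr rfl
      intro e _
      by_cases h1 : d ∣ n <;> by_cases h2 : e ∣ n <;> simp [Nat.lcm_dvd_iff, h1, h2]
    rw [sum_congr rfl h3, sum_comm]
    apply sum_congr rfl
    intro d _
    rw [sum_comm]
    apply sum_congr rfl
    intro e _
    rw [← mul_sum, card_filter]
    push_cast
    rfl
  rw [h2]
  have h3 : ∀ d ∈ T, ∀ e ∈ T,
      lam d * lam e * (((Ioc a (a + H)).filter (fun n => Nat.lcm d e ∣ n)).card : ℝ) ≤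
      H * (lam d * lam e / (Nat.lcm d e : ℝ)) + 1 := by
    intro d hd e he
    have hd1 := (mem_Dr.mp hd).1
    have he1 := (mem_Dr.mp he).1
    have hl : 1 ≤ Nat.lcm d e := Nat.lcm_pos hd1 he1
    have h4 := count_mult a H (Nat.lcm d e) hl
    have h5 : |lam d * lam e| ≤ 1 := by
      rw [abs_mul]
      exact mul_le_one₀ (lamS_abs 1 R d) (abs_nonneg _) (lamS_abs 1 R e)
    have h6 : lam d * lam e * ((((Ioc a (a + H)).filter (fun n => Nat.lcm d e ∣ n)).card : ℝ) -
        (H : ℝ) / (Nat.lcm d e : ℝ)) ≤ 1 := by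
      calc _ ≤ |lam d * lam e * ((((Ioc a (a + H)).filter (fun n => Nat.lcm d e ∣ n)).card : ℝ) -
            (H : ℝ) / (Nat.lcm d e : ℝ))| := le_abs_self _
        _ ≤ 1 := by
            rw [abs_mul]
            exact mul_le_one₀ h5 (abs_nonneg _) h4
    have h7 : (H : ℝ) * (lam d * lam e / (Nat.lcm d e : ℝ)) =
        lam d * lam e * ((H : ℝ) / (Nat.lcm d e : ℝ)) := by ring
    rw [h7]
    linarith
  calc ∑ d ∈ T, ∑ e ∈ T, lam d * lam e * (((Ioc a (a + H)).filter (fun n => Nat.lcm d e ∣ n)).card : ℝ)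
      ≤ ∑ d ∈ T, ∑ e ∈ T, (H * (lam d * lam e / (Nat.lcm d e : ℝ)) + 1) :=
        sum_le_sum fun d hd => sum_le_sum fun e he => h3 d hd e he
    _ = H * (1 / GG 1 R) + (T.card : ℝ) ^ 2 := by
        simp only [sum_add_distrib, ← mul_sum]
        rw [lamS_quad 1 R hR1]
        simp only [sum_const, nsmul_eq_mul, mul_one]
        ring
    _ ≤ _ := by
        have hG := log_le_GG R
        have hc : (T.card : ℝ) ≤ R := by
          have h8 : T.card ≤ (Icc 1 R).card := by
            apply card_le_card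
            intro d hd
            rw [mem_Icc]
            exact ⟨(mem_Dr.mp hd).1, (mem_Dr.mp hd).2.1⟩
          rw [Nat.card_Icc] at h8
          exact_mod_cast (by omega : T.card ≤ R)
        have h9 : (H : ℝ) * (1 / GG 1 R) ≤ H / Real.log R := by
          rw [mul_one_div]
          gcongr
        have h10 : (T.card : ℝ) ^ 2 ≤ (R : ℝ) ^ 2 := by gcongr
        linarith

/-- primes in `(a, a + H]` -/
theorem primes_interval (a H R : ℕ) (hR : 2 ≤ R) :
    (((Ioc a (a + H)).filter Nat.Prime).card : ℝ) ≤ H / Real.log R + (R : ℝ) ^ 2 + R := by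
  classical
  have h1 : ((Ioc a (a + H)).filter Nat.Prime).card ≤
      ((Ioc a (a + H)).filter (fun n => ∀ p : ℕ, p.Prime → p ≤ R → ¬ p ∣ n)).card + R := by
    have h2 : (Ioc a (a + H)).filter Nat.Prime ⊆
        (Ioc a (a + H)).filter (fun n => ∀ p : ℕ, p.Prime → p ≤ R → ¬ p ∣ n) ∪ Icc 1 R := by
      intro n hn
      rw [mem_filter] at hn
      rw [mem_union, mem_filter, mem_Icc]
      by_cases hnR : n ≤ R
      · right
        exact ⟨hn.2.one_lt.le, hnR⟩
      · left
        refine ⟨hn.1, fun p hp hpR hpn => ?_⟩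
        have := (Nat.prime_dvd_prime_iff_eq hp hn.2).mp hpn
        omega
    have h3 := (card_le_card h2).trans (card_union_le _ _)
    rw [Nat.card_Icc] at h3
    omega
  have h4 := selberg_interval a H R hR
  have h5 : (((Ioc a (a + H)).filter Nat.Prime).card : ℝ) ≤
      (((Ioc a (a + H)).filter (fun n => ∀ p : ℕ, p.Prime → p ≤ R → ¬ p ∣ n)).card : ℝ) + R := by
    exact_mod_cast h1
  linarith

end Pool.Agent.H90.NA
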