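import Pool.Agent.H90.NA.GU
import Pool.Agent.H93.Final3

/-!
Upper and oscillation bounds for the number of non-arithmetic integers.
-/

set_option autoImplicit false

open Finset Filter Topology

namespace Pool.Agent.H90.NA

open Pool.Agent.H93

/-- from the variable `t` to the variable `x` -/
lemma back_ev {P : ℝ → Prop} (h : ∀ᶠ t : ℝ in atTop, P (xt t)) : ∀ᶠ x : ℝ in atTop, P x := by
  have hc := log_two_pos
  have hLL : Tendsto (fun x : ℝ => Real.log (Real.log x)) atTop atTop :=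
    Real.tendsto_log_atTop.comp Real.tendsto_log_atTop
  have ht : Tendsto (fun x : ℝ => √(Real.log (Real.log x) / Real.log 2)) atTop atTop :=
    Real.tendsto_sqrt_atTop.comp (hLL.atTop_div_const hc)
  filter_upwards [ht.eventually h, hLL.eventually_gt_atTop 0, Real.tendsto_log_atTop.eventually_gt_atTop 0,
    eventually_gt_atTop 0] with x h0 h1 h2 h3
  have e : xt (√(Real.log (Real.log x) / Real.log 2)) = x := by
    unfold xt
    rw [Real.sq_sqrt (by positivity), mul_div_cancel₀ _ hc.ne', Real.exp_log h2, Real.exp_log h3]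
  rwa [e] at h0

/-- the normalised count -/
noncomputable def rho (x : ℝ) : ℝ := (NN x : ℝ) / (x * g0 x)

/-- `rho (xt t)` and `GG t / RR t` are close -/
lemma rho_le (c : ℝ) (hc0 : 0 ≤ c) (h : ∀ η > 0, ∀ᶠ t : ℝ in atTop, GG t / RR t ≤ c + η) (ε : ℝ) (hε : 0 < ε) :
    ∀ᶠ x : ℝ in atTop, rho x ≤ c + ε := by
  -- all three factors are close to 1
  obtain ⟨η, hη0, hη1⟩ : ∃ η : ℝ, 0 < η ∧ (1 + η) * (((1 + η) * (c + η) + η) * (1 + η)) ≤ c + ε := by
    have hl : Tendsto (fun η : ℝ => (1 + η) * (((1 + η) * (c + η) + η) * (1 + η))) (𝓝 0)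
        (𝓝 ((1 + 0) * (((1 + 0) * (c + 0) + 0) * (1 + 0)))) := by
      have : Continuous (fun η : ℝ => (1 + η) * (((1 + η) * (c + η) + η) * (1 + η))) := by fun_prop
      exact this.tendsto 0
    have h1 : (1 + 0) * (((1 + 0) * (c + 0) + 0) * (1 + 0)) < c + ε := by
      norm_num
      linarith
    have h2 := hl.eventually (gt_mem_nhds h1)
    have h3 : ∀ᶠ η : ℝ in 𝓝[>] 0, (1 + η) * (((1 + η) * (c + η) + η) * (1 + η)) < c + ε :=
      h2.filter_mono nhdsWithin_le_nhds
    obtain ⟨η, h4, h5⟩ := (h3.and self_mem_nhdsWithin).exists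
    exact ⟨η, h5, h4.le⟩
  have hmain := main_asymptotic
  have hk := (kappa_tendsto.inv₀ one_ne_zero)
  rw [inv_one] at hk
  have h1 : ∀ᶠ t : ℝ in atTop, SS (Real.log (xt t)) / g0 (xt t) ≤ ((1 + η) * (c + η) + η) * (1 + η) := by
    filter_upwards [ratio_xt, h η hη0, compare η hη0, hk.eventually (ge_mem_nhds (show (1 : ℝ) < 1 + η by linarith)),
      hk.eventually (lt_mem_nhds (show (0 : ℝ) < 1 by norm_num))] with t e1 e2 e3 e4 e5
    rw [e1, div_eq_mul_inv]
    have h2 : WW t / RR t ≤ (1 + η) * (c + η) + η := by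
      refine e3.1.trans ?_
      have : (1 + η) * (GG t / RR t) ≤ (1 + η) * (c + η) := by gcongr
      linarith
    apply mul_le_mul h2 e4 e5.le
    positivity
  have h2 := back_ev (P := fun x => SS (Real.log x) / g0 x ≤ ((1 + η) * (c + η) + η) * (1 + η)) h1
  filter_upwards [h2, hmain.eventually (ge_mem_nhds (show (1 : ℝ) < 1 + η by linarith)),
    g0_pos, Real.tendsto_log_atTop.eventually_ge_atTop 1, eventually_gt_atTop 0] with x e1 e2 e3 e4 e5
  have hS := SS_pos e4
  unfold rho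
  have e6 : (NN x : ℝ) / (x * g0 x) = (NN x : ℝ) / (x * SS (Real.log x)) * (SS (Real.log x) / g0 x) := by
    field_simp
  rw [e6]
  refine le_trans ?_ hη1
  apply mul_le_mul e2 e1 (by positivity) (by positivity)

lemma rho_ge (c : ℝ) (hc0 : 0 ≤ c) (h : ∀ᶠ x : ℝ in atTop, rho x ≤ c) (ε : ℝ) (hε : 0 < ε) :
    ∀ᶠ t : ℝ in atTop, GG t / RR t ≤ c + ε := by
  obtain ⟨η, hη0, hη1⟩ : ∃ η : ℝ, 0 < η ∧ (1 + η) * ((c * (1 + η)) * (1 + η)) + η ≤ c + ε := by
    have hl : Tendsto (fun η : ℝ => (1 + η) * ((c * (1 + η)) * (1 + η)) + η) (𝓝 0)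
        (𝓝 ((1 + 0) * ((c * (1 + 0)) * (1 + 0)) + 0)) := by
      have : Continuous (fun η : ℝ => (1 + η) * ((c * (1 + η)) * (1 + η)) + η) := by fun_prop
      exact this.tendsto 0
    have h1 : (1 + 0) * ((c * (1 + 0)) * (1 + 0)) + 0 < c + ε := by
      norm_num
      linarith
    have h2 := hl.eventually (gt_mem_nhds h1)
    have h3 : ∀ᶠ η : ℝ in 𝓝[>] 0, (1 + η) * ((c * (1 + η)) * (1 + η)) + η < c + ε :=
      h2.filter_mono nhdsWithin_le_nhds
    obtain ⟨η, h4, h5⟩ := (h3.and self_mem_nhdsWithin).exists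
    exact ⟨η, h5, h4.le⟩
  have hmain := (main_asymptotic.inv₀ one_ne_zero)
  rw [inv_one] at hmain
  have h1 : ∀ᶠ x : ℝ in atTop, SS (Real.log x) / g0 x ≤ c * (1 + η) := by
    filter_upwards [h, hmain.eventually (ge_mem_nhds (show (1 : ℝ) < 1 + η by linarith)),
      hmain.eventually (lt_mem_nhds (show (0 : ℝ) < 1 by norm_num)),
      g0_pos, Real.tendsto_log_atTop.eventually_ge_atTop 1, eventually_gt_atTop 0] with x e1 e2 e2' e3 e4 e5
    have hS := SS_pos e4
    have hN : (0 : ℝ) < NN x := by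
      rcases Nat.eq_zero_or_pos (NN x) with h0 | h0
      · rw [h0] at e2'
        simp at e2'
      · exact_mod_cast h0
    have e6 : SS (Real.log x) / g0 x = rho x * ((NN x : ℝ) / (x * SS (Real.log x)))⁻¹ := by
      unfold rho
      field_simp
    rw [e6]
    apply mul_le_mul e1 e2 e2'.le hc0
  have h2 := xt_tendsto.eventually h1
  filter_upwards [h2, ratio_xt, compare η hη0, kappa_tendsto.eventually (ge_mem_nhds (show (1 : ℝ) < 1 + η by linarith)),
    kappa_tendsto.eventually (lt_mem_nhds (show (0 : ℝ) < 1 by norm_num))] with t e1 e2 e3 e4 e5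
  rw [e2] at e1
  have h3 : WW t / RR t ≤ (c * (1 + η)) * (1 + η) := by
    rw [div_le_iff₀ e5] at e1
    refine e1.trans ?_
    gcongr
  refine e3.2.trans (le_trans ?_ hη1)
  gcongr

/-- the reverse inequality -/
lemma rho_lo (c : ℝ) (hc0 : 0 ≤ c) (h : ∀ᶠ x : ℝ in atTop, c ≤ rho x) (ε : ℝ) (hε : 0 < ε) :
    ∀ᶠ t : ℝ in atTop, c - ε ≤ GG t / RR t := by
  obtain ⟨η, hη0, hη1⟩ : ∃ η : ℝ, 0 < η ∧ (1 + η) * ((1 + η) * ((1 + η) * (c - ε) + η)) ≤ c := by
    have hl : Tendsto (fun η : ℝ => (1 + η) * ((1 + η) * ((1 + η) * (c - ε) + η))) (𝓝 0)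
        (𝓝 ((1 + 0) * ((1 + 0) * ((1 + 0) * (c - ε) + 0)))) := by
      have : Continuous (fun η : ℝ => (1 + η) * ((1 + η) * ((1 + η) * (c - ε) + η))) := by fun_prop
      exact this.tendsto 0
    have h1 : (1 + 0) * ((1 + 0) * ((1 + 0) * (c - ε) + 0)) < c := by
      norm_num
      linarith
    have h2 := hl.eventually (gt_mem_nhds h1)
    have h3 : ∀ᶠ η : ℝ in 𝓝[>] 0, (1 + η) * ((1 + η) * ((1 + η) * (c - ε) + η)) < c :=
      h2.filter_mono nhdsWithin_le_nhds
    obtain ⟨η, h4, h5⟩ := (h3.and self_mem_nhdsWithin).exists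
    exact ⟨η, h5, h4.le⟩
  have hmain := main_asymptotic
  have h1 : ∀ᶠ x : ℝ in atTop, c ≤ (1 + η) * (SS (Real.log x) / g0 x) := by
    filter_upwards [h, hmain.eventually (ge_mem_nhds (show (1 : ℝ) < 1 + η by linarith)),
      g0_pos, Real.tendsto_log_atTop.eventually_ge_atTop 1, eventually_gt_atTop 0] with x e1 e2 e3 e4 e5
    have hS := SS_pos e4
    have e6 : rho x = (NN x : ℝ) / (x * SS (Real.log x)) * (SS (Real.log x) / g0 x) := by
      unfold rho
      field_simp
    refine e1.trans ?_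
    rw [e6]
    gcongr
  have hk := (kappa_tendsto.inv₀ one_ne_zero)
  rw [inv_one] at hk
  have h2 := xt_tendsto.eventually h1
  filter_upwards [h2, ratio_xt, compare η hη0, hk.eventually (ge_mem_nhds (show (1 : ℝ) < 1 + η by linarith)),
    hk.eventually (lt_mem_nhds (show (0 : ℝ) < 1 by norm_num)), eventually_ge_atTop 2] with t e1 e2 e3 e4 e5 e7
  rw [e2, div_eq_mul_inv] at e1
  have hR := RR_pos e7
  have hW : 0 ≤ WW t / RR t := by
    apply div_nonneg _ hR.le
    exact tsum_nonneg fun p => by unfold wgt; positivity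
  by_contra hcon
  push Not at hcon
  have h3 : WW t / RR t ≤ (1 + η) * (c - ε) + η := by
    refine e3.1.trans ?_
    have : (1 + η) * (GG t / RR t) ≤ (1 + η) * (c - ε) := by gcongr
    linarith
  have h4 : WW t / RR t < (1 + η) * (c - ε) + η := by
    refine lt_of_le_of_lt e3.1 ?_
    have : (1 + η) * (GG t / RR t) < (1 + η) * (c - ε) := by
      apply mul_lt_mul_of_pos_left hcon (by linarith)
    linarith
  have h5 : (1 + η) * (WW t / RR t * (2 * Real.log t / (2 * Real.log t + Real.log (Real.log 2)))⁻¹) ≤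
      (1 + η) * ((1 + η) * (WW t / RR t)) := by
    apply mul_le_mul_of_nonneg_left _ (by linarith)
    rw [mul_comm (1 + η)]
    exact mul_le_mul_of_nonneg_left e4 hW
  have h6 : (1 + η) * ((1 + η) * (WW t / RR t)) < (1 + η) * ((1 + η) * ((1 + η) * (c - ε) + η)) := by
    apply mul_lt_mul_of_pos_left _ (by linarith)
    apply mul_lt_mul_of_pos_left h4 (by linarith)
  linarith

theorem bounds :
    (∀ ε : ℝ, 0 < ε → ∀ᶠ x : ℝ in atTop, (NN x : ℝ) ≤ (4 + ε) * (x * g0 x)) ∧
    (∀ ε : ℝ, 0 < ε → ∃ᶠ x : ℝ in atTop, (NN x : ℝ) ≤ (1 + ε) * (x * g0 x)) ∧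
    (∀ ε : ℝ, 0 < ε → ∃ᶠ x : ℝ in atTop, (1 - ε) * (x * g0 x) ≤ (NN x : ℝ)) := by
  have hpos : ∀ᶠ x : ℝ in atTop, 0 < x * g0 x := by
    filter_upwards [g0_pos, eventually_gt_atTop 0] with x h1 h2
    positivity
  refine ⟨fun ε hε => ?_, fun ε hε => ?_, fun ε hε => ?_⟩
  · filter_upwards [rho_le 4 (by norm_num) GG_le ε hε, hpos] with x h1 h2
    unfold rho at h1
    rwa [div_le_iff₀ h2] at h1
  · intro hcon
    have h1 : ∀ᶠ x : ℝ in atTop, 1 + ε ≤ rho x := by
      filter_upwards [hcon, hpos] with x h1 h2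
      unfold rho
      rw [le_div_iff₀ h2]
      exact (not_le.mp h1).le
    have h2 := rho_lo (1 + ε) (by linarith) h1 (ε / 2) (by linarith)
    have h3 : 1 + ε / 2 ≤ 1 := by
      apply GG_upper
      filter_upwards [h2, eventually_ge_atTop 2] with t h3 h4
      rw [← le_div_iff₀ (RR_pos h4)]
      linarith
    linarith
  · intro hcon
    have hε1 : ε ≤ 1 := by
      by_contra h
      push Not at h
      obtain ⟨x, h1, h2⟩ := (hcon.and hpos).exists
      apply h1
      have : (1 - ε) * (x * g0 x) ≤ 0 := by nlinarith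
      exact this.trans (Nat.cast_nonneg _)
    have h1 : ∀ᶠ x : ℝ in atTop, rho x ≤ 1 - ε := by
      filter_upwards [hcon, hpos] with x h1 h2
      unfold rho
      rw [div_le_iff₀ h2]
      exact (not_le.mp h1).le
    have h2 := rho_ge (1 - ε) (by linarith) h1 (ε / 2) (by linarith)
    have h3 : 1 ≤ 1 - ε / 2 := by
      apply GG_lower _ (by linarith)
      filter_upwards [h2, eventually_ge_atTop 2] with t h3 h4
      rw [← div_le_iff₀ (RR_pos h4)]
      linarith
    linarith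

end Pool.Agent.H90.NA
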