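import Pool.Agent.H90.NA.Win

/-!
The Gaussian weighted count of primes is at most `4 + ε` times its expected value.
-/

set_option autoImplicit false

open Finset Filter Topology

namespace Pool.Agent.H90.NA

open Pool.Agent.H93

/-- finite sums over the primes, block by block -/
lemma block_sum (t B : ℝ) (H : ℕ) (hH : 1 ≤ H) (ht : 1 ≤ t) (hB : 0 ≤ B)
    (hw : ∀ a : ℕ, (((Ioc a (a + H)).filter Nat.Prime).card : ℝ) ≤ B) (s : Finset ℕ)
    (hs : ∀ p ∈ s, p.Prime) :
    ∑ p ∈ s, Real.exp (-(Real.log 2 * ((p : ℝ) - t) ^ 2 / t)) ≤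
      2 * B * (1 + √(Real.pi / (Real.log 2 * (H : ℝ) ^ 2 / t)) / 2) := by
  have hc := log_two_pos
  have ht0 : 0 < t := by linarith
  have hH0 : (0 : ℝ) < H := by exact_mod_cast hH
  set T := ⌊t⌋₊ with hT
  have hT1 : (T : ℝ) ≤ t := Nat.floor_le ht0.le
  have hT2 : t < T + 1 := Nat.lt_floor_add_one t
  set α : ℝ := Real.log 2 * (H : ℝ) ^ 2 / t with hα
  have hα0 : 0 < α := by positivity
  -- a general one-sided bound
  have key : ∀ (S : Finset ℕ) (j : ℕ → ℕ), (∀ p ∈ S, p.Prime) →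
      (∀ p ∈ S, ((j p : ℝ) * H) ^ 2 ≤ ((p : ℝ) - t) ^ 2) →
      (∀ i : ℕ, ∃ a : ℕ, ∀ p ∈ S, j p = i → a < p ∧ p ≤ a + H) →
      ∑ p ∈ S, Real.exp (-(Real.log 2 * ((p : ℝ) - t) ^ 2 / t)) ≤ B * (1 + √(Real.pi / α) / 2) := by
    intro S j hp hj hb
    obtain ⟨K, hK⟩ : ∃ K : ℕ, ∀ p ∈ S, j p < K := by
      refine ⟨(S.sup j) + 1, fun p hp => Nat.lt_succ_of_le (Finset.le_sup hp)⟩
    calc ∑ p ∈ S, Real.exp (-(Real.log 2 * ((p : ℝ) - t) ^ 2 / t))
        ≤ ∑ p ∈ S, Real.exp (-α * (j p : ℝ) ^ 2) := by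
          refine sum_le_sum fun p hp => ?_
          apply Real.exp_le_exp.mpr
          have h1 := hj p hp
          rw [neg_mul]
          apply neg_le_neg
          rw [hα]
          calc Real.log 2 * (H : ℝ) ^ 2 / t * (j p : ℝ) ^ 2
              = Real.log 2 / t * ((j p : ℝ) * H) ^ 2 := by ring
            _ ≤ Real.log 2 / t * ((p : ℝ) - t) ^ 2 := by gcongr
            _ = _ := by ring
      _ = ∑ i ∈ range K, ∑ p ∈ S.filter (fun p => j p = i), Real.exp (-α * (j p : ℝ) ^ 2) := by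
          rw [Finset.sum_fiberwise_of_maps_to]
          intro p hp
          exact mem_range.mpr (hK p hp)
      _ ≤ ∑ i ∈ range K, B * Real.exp (-α * (i : ℝ) ^ 2) := by
          refine sum_le_sum fun i _ => ?_
          have h2 : ∑ p ∈ S.filter (fun p => j p = i), Real.exp (-α * (j p : ℝ) ^ 2) =
              ((S.filter (fun p => j p = i)).card : ℝ) * Real.exp (-α * (i : ℝ) ^ 2) := by
            rw [← nsmul_eq_mul, ← sum_const]
            refine sum_congr rfl fun p hp => ?_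
            rw [(mem_filter.mp hp).2]
          rw [h2]
          apply mul_le_mul_of_nonneg_right _ (Real.exp_pos _).le
          obtain ⟨a, ha⟩ := hb i
          refine le_trans ?_ (hw a)
          have : (S.filter (fun p => j p = i)).card ≤ ((Ioc a (a + H)).filter Nat.Prime).card := by
            apply card_le_card
            intro p hp1
            rw [mem_filter] at hp1
            rw [mem_filter, mem_Ioc]
            exact ⟨ha p hp1.1 hp1.2, hp p hp1.1⟩
          exact_mod_cast this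
      _ = B * ∑ i ∈ range K, Real.exp (-α * (i : ℝ) ^ 2) := by rw [mul_sum]
      _ ≤ _ := by
          apply mul_le_mul_of_nonneg_left (gsum_upper α hα0 K) hB
  have hsplit : ∑ p ∈ s, Real.exp (-(Real.log 2 * ((p : ℝ) - t) ^ 2 / t)) =
      ∑ p ∈ s.filter (fun p => T < p), Real.exp (-(Real.log 2 * ((p : ℝ) - t) ^ 2 / t)) +
      ∑ p ∈ s.filter (fun p => ¬ T < p), Real.exp (-(Real.log 2 * ((p : ℝ) - t) ^ 2 / t)) :=
    (sum_filter_add_sum_filter_not s _ _).symm
  rw [hsplit]
  have h1 := key (s.filter (fun p => T < p)) (fun p => (p - T - 1) / H)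
    (fun p hp => hs p (mem_filter.mp hp).1)
    (by
      intro p hp
      have h2 := (mem_filter.mp hp).2
      have h3 : (p - T - 1) / H * H ≤ p - T - 1 := Nat.div_mul_le_self _ _
      have h4 : (((p - T - 1) / H : ℕ) : ℝ) * H ≤ (p : ℝ) - T - 1 := by
        have h5 : (((p - T - 1) / H * H : ℕ) : ℝ) ≤ ((p - T - 1 : ℕ) : ℝ) := by exact_mod_cast h3
        have h7 : ((p - T - 1 : ℕ) : ℝ) = (p : ℝ) - T - 1 := by
          rw [Nat.cast_sub (by omega), Nat.cast_sub (by omega), Nat.cast_one]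
        rw [h7, Nat.cast_mul] at h5
        exact h5
      have h6 : (0 : ℝ) ≤ (((p - T - 1) / H : ℕ) : ℝ) * H := by positivity
      apply pow_le_pow_left₀ h6
      linarith)
    (by
      intro i
      refine ⟨T + i * H, fun p hp hpi => ?_⟩
      have h2 := (mem_filter.mp hp).2
      have h3 : (p - T - 1) / H * H ≤ p - T - 1 := Nat.div_mul_le_self _ _
      have h4 : p - T - 1 < (p - T - 1) / H * H + H := Nat.lt_div_mul_add hH
      rw [hpi] at h3 h4
      omega)
  have h2 := key (s.filter (fun p => ¬ T < p)) (fun p => (T - p) / H)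
    (fun p hp => hs p (mem_filter.mp hp).1)
    (by
      intro p hp
      have h2 := (mem_filter.mp hp).2
      have h3 : (T - p) / H * H ≤ T - p := Nat.div_mul_le_self _ _
      have h4 : (((T - p) / H : ℕ) : ℝ) * H ≤ (T : ℝ) - p := by
        have h5 : (((T - p) / H * H : ℕ) : ℝ) ≤ ((T - p : ℕ) : ℝ) := by exact_mod_cast h3
        rw [Nat.cast_sub (by omega)] at h5
        push_cast at h5
        linarith
      have h6 : (0 : ℝ) ≤ (((T - p) / H : ℕ) : ℝ) * H := by positivity
      rw [show ((p : ℝ) - t) ^ 2 = (t - p) ^ 2 by ring]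
      apply pow_le_pow_left₀ h6
      linarith)
    (by
      intro i
      refine ⟨T - i * H - H, fun p hp hpi => ?_⟩
      have h2 := (mem_filter.mp hp).2
      have hp0 : 0 < p := (hs p (mem_filter.mp hp).1).pos
      have h3 : (T - p) / H * H ≤ T - p := Nat.div_mul_le_self _ _
      have h4 : T - p < (T - p) / H * H + H := Nat.lt_div_mul_add hH
      rw [hpi] at h3 h4
      omega)
  linarith

/-- the upper bound for the Gaussian weighted count -/
theorem GG_le (ε : ℝ) (hε : 0 < ε) : ∀ᶠ t : ℝ in atTop, GG t / RR t ≤ 4 + ε := by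
  set e : ℝ := min (ε / 4) 1 with he
  have he0 : 0 < e := lt_min (by positivity) one_pos
  have he1 : e ≤ 1 := min_le_right _ _
  have he2 : e ≤ ε / 4 := min_le_left _ _
  set δ : ℝ := ε / 40 with hδ
  have hδ0 : 0 < δ := by positivity
  have hc := log_two_pos
  have hpi := Real.pi_gt_three
  have hl2 : Real.log 2 < 1 := by
    have := Real.log_two_lt_d9
    linarith
  obtain ⟨t1, _, h1⟩ := ggt_summable
  -- δ √t / H → 1
  have hlim : ∀ᶠ t : ℝ in atTop, δ * √t ≤ (1 + ε / 20) * (⌊δ * √t⌋₊ : ℝ) := by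
    have h2 : Tendsto (fun t : ℝ => δ * √t) atTop atTop := Real.tendsto_sqrt_atTop.const_mul_atTop hδ0
    filter_upwards [h2.eventually_ge_atTop ((1 + ε / 20) * (20 / ε))] with t ht
    have h3 : δ * √t < (⌊δ * √t⌋₊ : ℝ) + 1 := Nat.lt_floor_add_one _
    set y := δ * √t
    have h4 : (1 + ε / 20) * (20 / ε) * (ε / 20) ≤ y * (ε / 20) := by gcongr
    have h5 : (1 + ε / 20) * (20 / ε) * (ε / 20) = 1 + ε / 20 := by field_simp
    nlinarith
  have hH1 : ∀ᶠ t : ℝ in atTop, 1 ≤ δ * √t :=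
    (Real.tendsto_sqrt_atTop.const_mul_atTop hδ0).eventually_ge_atTop 1
  filter_upwards [window δ e hδ0 he0, hlim, hH1, eventually_ge_atTop t1, eventually_ge_atTop 2] with t hw hl hH htt1 ht2
  have ht0 : 0 < t := by linarith
  have hlog : 0 < Real.log t := Real.log_pos (by linarith)
  set H := ⌊δ * √t⌋₊ with hHd
  have hH' : 1 ≤ H := Nat.le_floor (by exact_mod_cast hH)
  have hH0 : (0 : ℝ) < H := by exact_mod_cast hH'
  set B : ℝ := (4 + e) * (δ * √t) / Real.log t with hB
  have hB0 : 0 < B := by positivity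
  have hR := RR_pos ht2
  have hst : 0 < √t := Real.sqrt_pos.mpr ht0
  have hbound : GG t ≤ 2 * B * (1 + √(Real.pi / (Real.log 2 * (H : ℝ) ^ 2 / t)) / 2) := by
    unfold GG
    refine (h1 t htt1).tsum_le_of_sum_le fun s => ?_
    have h2 := block_sum t B H hH' (by linarith) hB0.le hw (s.image (fun p : Nat.Primes => (p : ℕ)))
      (by
        intro p hp
        obtain ⟨q, _, rfl⟩ := mem_image.mp hp
        exact q.2)
    rw [sum_image (f := fun p : ℕ => Real.exp (-(Real.log 2 * ((p : ℝ) - t) ^ 2 / t)))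
      (g := fun p : Nat.Primes => (p : ℕ)) (fun a _ b _ h => Subtype.ext h)] at h2
    exact h2
  have e1 : √(Real.pi / (Real.log 2 * (H : ℝ) ^ 2 / t)) = √(Real.pi * t / Real.log 2) / H := by
    rw [show Real.pi / (Real.log 2 * (H : ℝ) ^ 2 / t) = (Real.pi * t / Real.log 2) / (H : ℝ) ^ 2 by
      field_simp, Real.sqrt_div' _ (by positivity), Real.sqrt_sq hH0.le]
  rw [e1] at hbound
  set Q := √(Real.pi * t / Real.log 2) with hQ
  have hQt : √t ≤ Q := by
    apply Real.sqrt_le_sqrt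
    rw [le_div_iff₀ hc]
    nlinarith
  have hQ0 : 0 < Q := lt_of_lt_of_le hst hQt
  have hRR : RR t = Q / Real.log t := rfl
  rw [div_le_iff₀ hR]
  refine hbound.trans ?_
  rw [hRR]
  have e2 : 2 * B * (1 + Q / H / 2) = ((4 + e) * (2 * (δ * √t) + (δ * √t) / H * Q)) / Real.log t := by
    rw [hB]; ring
  rw [e2, ← mul_div_assoc]
  apply div_le_div_of_nonneg_right _ hlog.le
  have h3 : (δ * √t) / H ≤ 1 + ε / 20 := by
    rw [div_le_iff₀ hH0]
    exact hl
  have h4 : 2 * (δ * √t) + (δ * √t) / H * Q ≤ (2 * δ) * Q + (1 + ε / 20) * Q := by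
    have h5 : (δ * √t) / H * Q ≤ (1 + ε / 20) * Q := by gcongr
    have h6 : δ * √t ≤ δ * Q := by gcongr
    linarith
  calc (4 + e) * (2 * (δ * √t) + (δ * √t) / H * Q) ≤ (4 + e) * ((2 * δ) * Q + (1 + ε / 20) * Q) := by
        gcongr
    _ = ((4 + e) * (1 + ε / 10)) * Q := by rw [hδ]; ring
    _ ≤ _ := by
        apply mul_le_mul_of_nonneg_right _ hQ0.le
        nlinarith

end Pool.Agent.H90.NA
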