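import Pool.Agent.H90.NA.BT
import Pool.Agent.H93.Gauss5

/-!
Primes in windows of length `δ √t`: at most `(4 + ε) δ √t / log t` of them, uniformly in the
position of the window.
-/

set_option autoImplicit false

open Finset Filter Topology

namespace Pool.Agent.H90.NA

open Pool.Agent.H93

/-- Brun-Titchmarsh for windows of length `δ √t` -/
lemma window (δ ε : ℝ) (hδ : 0 < δ) (hε : 0 < ε) : ∀ᶠ t : ℝ in atTop, ∀ a : ℕ,
    (((Ioc a (a + ⌊δ * √t⌋₊)).filter Nat.Prime).card : ℝ) ≤ (4 + ε) * (δ * √t) / Real.log t := by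
  -- choose η with 1 / (1/4 - 2 η) ≤ 4 + ε / 2
  obtain ⟨η, hη0, hη1, hη2⟩ : ∃ η : ℝ, 0 < η ∧ η < 1 / 8 ∧ 1 ≤ (4 + ε / 2) * (1 / 4 - 2 * η) := by
    refine ⟨min (1 / 16) (ε / (16 * (4 + ε))), ?_, ?_, ?_⟩
    · apply lt_min (by norm_num)
      positivity
    · exact lt_of_le_of_lt (min_le_left _ _) (by norm_num)
    · have h1 : min (1 / 16) (ε / (16 * (4 + ε))) ≤ ε / (16 * (4 + ε)) := min_le_right _ _
      set m := min (1 / 16) (ε / (16 * (4 + ε)))
      have h2 : m * (16 * (4 + ε)) ≤ ε := by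
        rwa [le_div_iff₀ (by positivity)] at h1
      have hm : 0 ≤ m := by
        apply le_min (by norm_num)
        positivity
      nlinarith
  have hq : 0 < 1 / 4 - 2 * η := by linarith
  have hq2 : 0 < 1 / 4 - η := by linarith
  -- R = ⌊t ^ (1/4 - η)⌋
  have hpow : Tendsto (fun t : ℝ => t ^ (1 / 4 - η)) atTop atTop := tendsto_rpow_atTop hq2
  have e1 : ∀ᶠ t : ℝ in atTop, 2 ≤ t ^ η := (tendsto_rpow_atTop hη0).eventually_ge_atTop 2
  have e2 : ∀ᶠ t : ℝ in atTop, 3 ≤ t ^ (1 / 4 - η) := hpow.eventually_ge_atTop 3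
  have e3 : Tendsto (fun t : ℝ => Real.log t / t ^ (2 * η)) atTop (𝓝 0) :=
    (isLittleO_log_rpow_atTop (by linarith : (0 : ℝ) < 2 * η)).tendsto_div_nhds_zero
  have e4 : ∀ᶠ t : ℝ in atTop, Real.log t / t ^ (2 * η) ≤ ε * δ / 4 :=
    e3.eventually (ge_mem_nhds (by positivity))
  filter_upwards [e1, e2, e4, eventually_gt_atTop 2] with t h1 h2 h4 ht a
  have ht0 : 0 < t := by linarith
  have hlog : 0 < Real.log t := Real.log_pos (by linarith)
  set R := ⌊t ^ (1 / 4 - η)⌋₊ with hR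
  have hR3 : 3 ≤ R := Nat.le_floor (by exact_mod_cast h2)
  have hRle : (R : ℝ) ≤ t ^ (1 / 4 - η) := Nat.floor_le (by positivity)
  have hRlt : t ^ (1 / 4 - η) < R + 1 := Nat.lt_floor_add_one _
  -- log R
  have hRge : t ^ (1 / 4 - 2 * η) ≤ R := by
    have h5 : t ^ (1 / 4 - η) = t ^ (1 / 4 - 2 * η) * t ^ η := by
      rw [← Real.rpow_add ht0]; congr 1; ring
    have h6 : 0 < t ^ (1 / 4 - 2 * η) := by positivity
    have h7 : (1 : ℝ) ≤ t ^ (1 / 4 - 2 * η) := Real.one_le_rpow (by linarith) hq.le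
    nlinarith
  have hlogR : (1 / 4 - 2 * η) * Real.log t ≤ Real.log R := by
    rw [← Real.log_rpow ht0]
    exact Real.log_le_log (by positivity) hRge
  have hlogR0 : 0 < Real.log R := lt_of_lt_of_le (by positivity) hlogR
  have hb := primes_interval a ⌊δ * √t⌋₊ R (by omega)
  have hH : ((⌊δ * √t⌋₊ : ℕ) : ℝ) ≤ δ * √t := Nat.floor_le (by positivity)
  -- first term
  have k1 : ((⌊δ * √t⌋₊ : ℕ) : ℝ) / Real.log R ≤ (4 + ε / 2) * (δ * √t) / Real.log t := by
    rw [div_le_div_iff₀ hlogR0 hlog]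
    have h8 : Real.log t ≤ (4 + ε / 2) * Real.log R := by
      calc Real.log t ≤ ((4 + ε / 2) * (1 / 4 - 2 * η)) * Real.log t := by nlinarith
        _ = (4 + ε / 2) * ((1 / 4 - 2 * η) * Real.log t) := by ring
        _ ≤ _ := by gcongr
    calc ((⌊δ * √t⌋₊ : ℕ) : ℝ) * Real.log t ≤ (δ * √t) * ((4 + ε / 2) * Real.log R) := by gcongr
      _ = _ := by ring
  -- second term
  have k2 : (R : ℝ) ^ 2 + R ≤ ε / 2 * (δ * √t) / Real.log t := by
    have h9 : (R : ℝ) ^ 2 + R ≤ 2 * (R : ℝ) ^ 2 := by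
      have : (1 : ℝ) ≤ R := by exact_mod_cast (by omega : 1 ≤ R)
      nlinarith
    have h10 : (R : ℝ) ^ 2 ≤ √t / t ^ (2 * η) := by
      calc (R : ℝ) ^ 2 ≤ (t ^ (1 / 4 - η)) ^ 2 := by gcongr
        _ = t ^ ((1 / 4 - η) * 2) := by
            rw [Real.rpow_mul ht0.le, Real.rpow_two]
        _ = √t / t ^ (2 * η) := by
            rw [Real.sqrt_eq_rpow, ← Real.rpow_sub ht0]; congr 1; ring
    have hp : 0 < t ^ (2 * η) := by positivity
    rw [div_le_iff₀ hp] at h4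
    rw [le_div_iff₀ hlog]
    calc ((R : ℝ) ^ 2 + R) * Real.log t ≤ (2 * (√t / t ^ (2 * η))) * (ε * δ / 4 * t ^ (2 * η)) := by
          apply mul_le_mul (h9.trans (by linarith)) h4 hlog.le
          positivity
      _ = _ := by field_simp; ring
  calc _ ≤ _ := hb
    _ ≤ (4 + ε / 2) * (δ * √t) / Real.log t + ε / 2 * (δ * √t) / Real.log t := by linarith
    _ = _ := by ring

end Pool.Agent.H90.NA
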